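import Pool.Agent.TH285.MG.Fam2
import Pool.Agent.W238.Leh.General

/-!
# The number of characteristic polynomials close to a power of `X - 1`
-/

set_option autoImplicit false
set_option linter.unusedSectionVars false

namespace Pool.Agent.TH285.MG

open Polynomial in
/-- the top coefficient -/
theorem NN_top {E : Type*} [Field E] [IsAlgClosed E] (p : ℕ) (hp : 0 < p) {n : ℕ}
    (c : Fin (n + 1) → E) (hc : c (Fin.last n) ≠ 0) : (NN p c).coeff n ≠ 0 := by
  classical
  set P : E[X] := ∑ i : Fin (n + 1), C (c i) * X ^ (i : ℕ) with hP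
  have hco : ∀ i : Fin (n + 1), P.coeff i = c i := by
    intro i
    rw [hP, finsetSum_coeff, Finset.sum_eq_single i]
    · simp
    · intro j _ hj
      rw [coeff_C_mul, coeff_X_pow, if_neg, mul_zero]
      intro h
      exact hj (Fin.ext h.symm)
    · simp
  have hdle : P.natDegree ≤ n := by
    rw [hP]
    refine natDegree_sum_le_of_forall_le _ _ fun i _ => ?_
    refine (natDegree_C_mul_X_pow_le _ _).trans ?_
    omega
  have hcn : P.coeff n = c (Fin.last n) := hco (Fin.last n)
  have hd : P.natDegree = n := by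
    apply le_antisymm hdle
    apply le_natDegree_of_ne_zero
    rw [hcn]
    exact hc
  have hP0 : P ≠ 0 := by
    intro h
    rw [h, coeff_zero] at hcn
    exact hc hcn.symm
  have hfp : fp c = P.map C := by
    rw [← fp_coeff P hdle]
    congr 1
    funext i
    exact (hco i).symm
  have hsp : P.Splits := IsAlgClosed.splits P
  have hnd : (P.map C).natDegree = n := by
    rw [natDegree_map_eq_of_injective C_injective, hd]
  have hroots : (P.map C).roots = P.roots.map C :=
    (roots_map_of_injective_of_card_eq_natDegree C_injective hsp.natDegree_eq_card_roots.symm).symm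
  have hlc : (P.map C).leadingCoeff = C (c (Fin.last n)) := by
    rw [leadingCoeff_map_of_injective C_injective, leadingCoeff, hd, hcn]
  have h1 : NN p c = C (c (Fin.last n) ^ p) * (-1) ^ n *
      ((P.roots.map fun a => a ^ p).map fun a => X - C a).prod := by
    unfold NN
    have h2 := resultant_eq_prod_eval (P.map C) (X ^ p - C X) p (by
      exact natDegree_X_pow_sub_C.le) (hsp.map C)
    rw [hnd] at h2
    rw [hfp, h2, hlc, hroots, ← C_pow, mul_assoc]
    congr 1
    rw [Multiset.map_map, Multiset.map_map]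
    have h3 : (P.roots.map ((fun q : E[X] => eval q (X ^ p - C X : E[X][X])) ∘ C)) =
        P.roots.map fun a => (-1) * (X - C (a ^ p)) := by
      refine Multiset.map_congr rfl fun a _ => ?_
      simp
    rw [h3, Multiset.prod_map_mul, Multiset.map_const', Multiset.prod_replicate,
      ← hsp.natDegree_eq_card_roots, hd]
    rfl
  have h4 : ((P.roots.map fun a => a ^ p).map fun a => X - C a).prod.coeff n = 1 := by
    have h5 := monic_multisetProd_X_sub_C (P.roots.map fun a => a ^ p)
    have h6 : ((P.roots.map fun a => a ^ p).map fun a => X - C a).prod.natDegree = n := by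
      rw [natDegree_multiset_prod_X_sub_C_eq_card, Multiset.card_map,
        ← hsp.natDegree_eq_card_roots, hd]
    rw [Monic, leadingCoeff, h6] at h5
    exact h5
  have h7 : (C (c (Fin.last n) ^ p) * (-1) ^ n : E[X]) = C (c (Fin.last n) ^ p * (-1) ^ n) := by
    simp
  rw [h1, h7, coeff_C_mul, h4, mul_one]
  exact mul_ne_zero (pow_ne_zero _ hc) (pow_ne_zero _ (neg_ne_zero.mpr one_ne_zero))

open Polynomial in
theorem NN_eq_zero {E : Type*} [Field E] [IsAlgClosed E] (p : ℕ) (hp : 0 < p) :
    ∀ (n : ℕ) (c : Fin (n + 1) → E), (∀ i : Fin (n + 1), (NN p c).coeff i = 0) → c = 0 := by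
  intro n
  induction n with
  | zero =>
    intro c h
    funext i
    have hi : i = Fin.last 0 := Fin.ext (by have := i.2; simp at this ⊢)
    rw [hi]
    by_contra hc
    exact NN_top p hp c hc (h (Fin.last 0))
  | succ n ih =>
    intro c h
    have hlast : c (Fin.last (n + 1)) = 0 := by
      by_contra hc
      exact NN_top p hp c hc (h (Fin.last (n + 1)))
    have hfp : fp c = fp fun i : Fin (n + 1) => c i.castSucc := by
      unfold fp
      rw [Fin.sum_univ_castSucc, hlast]
      simp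
    have h1 : NN p c = (-1) ^ p * NN p fun i : Fin (n + 1) => c i.castSucc := by
      unfold NN
      rw [hfp, resultant_succ_left_deg _ _ _ _ (fp_natDegree_le _)]
      have h2 : (X ^ p - C X : E[X][X]).coeff p = 1 := by
        rw [coeff_sub, coeff_X_pow, if_pos rfl, coeff_C, if_neg hp.ne', sub_zero]
      rw [h2, mul_one]
    have h3 : (fun i : Fin (n + 1) => c i.castSucc) = 0 := by
      apply ih
      intro i
      have h4 := h i.castSucc
      rw [h1] at h4
      have h5 : ((-1) ^ p : E[X]) = C ((-1) ^ p) := by simp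
      rw [h5, coeff_C_mul] at h4
      exact (mul_eq_zero.mp h4).resolve_left (pow_ne_zero _ (neg_ne_zero.mpr one_ne_zero))
    funext i
    refine Fin.lastCases ?_ (fun j => ?_) i
    · exact hlast
    · exact congrFun h3 j

open NumberField Module Filter Topology
open Pool.Agent.W238.Leh (act act_smul canH canH_smul)
open Pool.Agent.H225R3.Marg
open Pool.Agent.H627.LP (Wnd InsepN Conj)
open Pool.Agent.H420R3 (mi v_le_one v_lt_one_iff)

open scoped LinearAlgebra.Projectivization

theorem frK_mor (K : Type) [Field K] (p n : ℕ) (hp : 0 < p)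
    (z : Fin (n + 1) → AlgebraicClosure K) (h : ∀ i, MvPolynomial.aeval z (frK K p n i) = 0) :
    z = 0 := by
  apply NN_eq_zero p hp n z
  intro i
  rw [← frm_eval, ← h i, frK, MvPolynomial.aeval_def, MvPolynomial.aeval_def,
    MvPolynomial.eval₂_map]
  congr 1

/-- the number of characteristic polynomials of small height -/
theorem few_polys (n s : ℕ) (δ : ℝ) (hδ : 0 < δ) : ∃ ε : ℝ, 0 < ε ∧ ∃ C : ℝ, 0 < C ∧
    ∀ (L : Type) [Field L] [NumberField L] (S : Finset (L →+* ℂ)), S.card ≤ s →
      ∀ 𝒜 : Set (Matrix (Fin n) (Fin n) (𝓞 L)),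
      (∀ A ∈ 𝒜, (∀ σ : L →+* ℂ, σ ∉ S → ∀ l : ℂ,
          ((emb σ).mapMatrix A).charpoly.IsRoot l → ‖l‖ ≤ 1) ∧
        ∀ σ ∈ S, ∀ l : ℂ, ((emb σ).mapMatrix A).charpoly.IsRoot l → ‖l - 1‖ < ε) →
      (Matrix.charpoly '' 𝒜).Finite ∧
      ((Matrix.charpoly '' 𝒜).ncard : ℝ) ≤ C * (finrank ℚ L : ℝ) ^ ((n : ℝ) + δ) := by
  classical
  obtain ⟨C, hC, hgen⟩ := Pool.Agent.W238.Leh.general ℚ n 2 le_rfl (frK ℚ 2 n) (frK_hom 2 n)
    (frK_mor ℚ 2 n (by norm_num)) δ hδ
  set ε : ℝ := 1 / (4 * C * (n * s + 1)) with hε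
  have hε0 : 0 < ε := by positivity
  refine ⟨ε, hε0, C, hC, ?_⟩
  intro L _ _ S hSs 𝒜 h𝒜
  obtain ⟨hlim, hfin, hcard, -⟩ := hgen L
  set d : ℕ := finrank ℚ L with hd
  have hd0 : (0 : ℝ) < d := by
    have : 0 < finrank ℚ L := finrank_pos
    exact_mod_cast this
  have hR : (1 : ℝ) ≤ 1 + ε := by linarith
  have hlogR : Real.log (1 + ε) ≤ ε := by
    have := Real.log_le_sub_one_of_pos (show 0 < 1 + ε by linarith)
    linarith
  have hlogR0 : 0 ≤ Real.log (1 + ε) := Real.log_nonneg hR
  -- small canonical heights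
  have hsmall : ∀ A ∈ 𝒜, canH (frK ℚ 2 n) 2 (xv A) < 1 / (C * d) := by
    intro A hA
    obtain ⟨hout, hin'⟩ := h𝒜 A hA
    have hin : ∀ σ ∈ S, ∀ l : ℂ, ((emb σ).mapMatrix A).charpoly.IsRoot l → ‖l‖ ≤ 1 + ε := by
      intro σ hσ l hl
      have h1 := hin' σ hσ l hl
      have h2 : ‖l‖ ≤ ‖l - 1‖ + ‖(1 : ℂ)‖ := by
        have := norm_add_le (l - 1) 1
        rwa [sub_add_cancel] at this
      rw [norm_one] at h2
      linarith
    have hub : ∀ j : ℕ, Height.logHeight ((act (frK ℚ 2 n))^[j] (xv A)) /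
        ((d : ℝ) * ((2 : ℕ) : ℝ) ^ j) ≤
        n * Real.log 2 * ((2 : ℝ)⁻¹) ^ j + 2 * s * n * ε / d := by
      intro j
      obtain ⟨u, hu, h1⟩ := act_iter_xv (K := ℚ) 2 (by norm_num) A j
      rw [h1, Height.logHeight_smul_eq_logHeight _ hu]
      have hpj : 0 < 2 ^ j := by positivity
      have h2 := mulHeight_xv_le A S (1 + ε) hR hout hin (2 ^ j) hpj
      have hmh : 0 < Height.mulHeight (xv (A ^ 2 ^ j)) := Height.mulHeight_pos _
      have h3 : Height.logHeight (xv (A ^ 2 ^ j)) ≤
          d * (n * Real.log 2) + 2 * S.card * (n * 2 ^ j * Real.log (1 + ε)) := by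
        rw [Height.logHeight]
        refine (Real.log_le_log hmh h2).trans ?_
        rw [Real.log_mul (by positivity) (by positivity), Real.log_pow, Real.log_pow,
          Real.log_pow, Real.log_pow]
        push_cast
        rw [hd]
      have h4 : (2 * S.card * (n * 2 ^ j * Real.log (1 + ε)) : ℝ) ≤
          2 * s * (n * 2 ^ j * ε) := by
        have hs' : (S.card : ℝ) ≤ s := by exact_mod_cast hSs
        gcongr
      push_cast
      rw [div_le_iff₀ (by positivity)]
      have h5 : (n * Real.log 2 * ((2 : ℝ)⁻¹) ^ j + 2 * s * n * ε / d) * (d * (2 : ℝ) ^ j) =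
          d * (n * Real.log 2) + 2 * s * (n * 2 ^ j * ε) := by
        rw [inv_pow]
        field_simp
      rw [h5]
      linarith
    have hlim2 : Tendsto (fun j : ℕ => (n : ℝ) * Real.log 2 * ((2 : ℝ)⁻¹) ^ j +
        2 * s * n * ε / d) atTop (𝓝 ((n : ℝ) * Real.log 2 * 0 + 2 * s * n * ε / d)) := by
      refine Tendsto.add_const _ (Tendsto.const_mul _ ?_)
      exact tendsto_pow_atTop_nhds_zero_of_lt_one (by norm_num) (by norm_num)
    have hle := le_of_tendsto_of_tendsto' (hlim (xv A) (xv_ne A)) hlim2 hub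
    rw [mul_zero, zero_add] at hle
    refine hle.trans_lt ?_
    rw [div_lt_div_iff₀ hd0 (by positivity), hε]
    have h3 : 2 * (s : ℝ) * n * (1 / (4 * C * (n * s + 1))) * (C * d) =
        (n * s) / (2 * (n * s + 1)) * d := by
      field_simp
      ring
    rw [h3]
    refine mul_lt_mul_of_pos_right ?_ hd0
    rw [div_lt_one (by positivity)]
    have h4 : (0 : ℝ) ≤ n * s := by positivity
    linarith
  -- the map to points
  have hsec : ∀ q ∈ Matrix.charpoly '' 𝒜, ∃ A ∈ 𝒜, A.charpoly = q := fun q hq => hq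
  choose! f hf1 hf2 using hsec
  let g : Polynomial (𝓞 L) → ℙ L (Fin (n + 1) → L) := fun q =>
    Projectivization.mk L (xv (f q)) (xv_ne (f q))
  have hmaps : ∀ q ∈ Matrix.charpoly '' 𝒜, g q ∈ {P : ℙ L (Fin (n + 1) → L) |
      canH (frK ℚ 2 n) 2 P.rep < 1 / (C * d)} := by
    intro q hq
    obtain ⟨a, ha⟩ := Projectivization.exists_smul_eq_mk_rep L (xv (f q)) (xv_ne (f q))
    change canH (frK ℚ 2 n) 2 (Projectivization.mk L (xv (f q)) (xv_ne (f q))).rep < _
    rw [← ha]
    have h1 : canH (frK ℚ 2 n) 2 ((a : L) • xv (f q)) = canH (frK ℚ 2 n) 2 (xv (f q)) :=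
      canH_smul (frK_hom 2 n) a.ne_zero _
    have h2 : a • xv (f q) = (a : L) • xv (f q) := rfl
    rw [h2, h1]
    exact hsmall _ (hf1 q hq)
  have hinj : Set.InjOn g (Matrix.charpoly '' 𝒜) := by
    intro q hq q' hq' h
    have h1 := (Projectivization.mk_eq_mk_iff' L _ _ (xv_ne (f q)) (xv_ne (f q'))).mp h
    obtain ⟨a, ha⟩ := h1
    rw [← hf2 q hq, ← hf2 q' hq']
    exact charpoly_eq ha.symm
  have hfin' : (Matrix.charpoly '' 𝒜).Finite :=
    Set.Finite.of_injOn hmaps hinj hfin
  refine ⟨hfin', ?_⟩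
  refine le_trans ?_ hcard
  exact_mod_cast Set.ncard_le_ncard_of_injOn g hmaps hinj hfin

end Pool.Agent.TH285.MG
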