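import Pool.Agent.TH285.MG.Gap

/-!
# Uniform discreteness
-/

set_option autoImplicit false

namespace Pool.Agent.TH285.MG

open NumberField Module Filter Topology
open Pool.Agent.W238.Leh (act act_smul)
open Pool.Agent.H225R3.Marg
open Pool.Agent.H627.LP (Wnd InsepN Conj)
open Pool.Agent.H420R3 (mi v_le_one v_lt_one_iff)

theorem conj_one (K : Type) [Field K] [NumberField K] (p n : ℕ) :
    Conj (1 : Matrix (Fin (n + 1)) (Fin (n + 1)) K) (frK K p n) (frK K p n) := by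
  classical
  intro i
  have h1 : (fun l : Fin (n + 1) => ∑ j, MvPolynomial.C ((1 : Matrix _ _ K) l j) *
      (MvPolynomial.X j : MvPolynomial (Fin (n + 1)) K)) = MvPolynomial.X := by
    funext l
    rw [Finset.sum_eq_single l]
    · rw [Matrix.one_apply_eq, map_one, one_mul]
    · intro j _ hj
      rw [Matrix.one_apply_ne (Ne.symm hj), map_zero, zero_mul]
    · simp
  rw [h1, MvPolynomial.bind₁_X_left, Finset.sum_eq_single i]
  · rw [Matrix.one_apply_eq, map_one, one_mul, Algebra.algebraMap_self, MvPolynomial.map_id]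
    rfl
  · intro j _ hj
    rw [Matrix.one_apply_ne (Ne.symm hj), map_zero, zero_mul]
  · simp

/-- a place with given maximal ideal -/
theorem place_of_ideal (K : Type) [Field K] [NumberField K] (p : ℕ) (hp : p.Prime)
    (P : Ideal (𝓞 K)) (hP : P.IsPrime) (hpP : (p : 𝓞 K) ∈ P) :
    ∃ v : FinitePlace K, v.maximalIdeal.asIdeal = P ∧ v (p : K) < 1 := by
  have h0 : P ≠ ⊥ := by
    rintro rfl
    rw [Ideal.mem_bot] at hpP
    exact hp.ne_zero (by exact_mod_cast hpP)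
  let I : IsDedekindDomain.HeightOneSpectrum (𝓞 K) := ⟨P, hP, h0⟩
  have h1 : (FinitePlace.mk I).maximalIdeal.asIdeal = P := by
    rw [FinitePlace.maximalIdeal_mk]
  refine ⟨FinitePlace.mk I, h1, ?_⟩
  have hp' : (p : K) = ((p : 𝓞 K) : K) := by simp
  rw [hp', v_lt_one_iff]
  unfold mi
  rw [h1]
  exact hpP

/-- a place above a prime number -/
theorem exists_place (K : Type) [Field K] [NumberField K] (p : ℕ) (hp : p.Prime) :
    ∃ v : FinitePlace K, v (p : K) < 1 := by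
  have hpi : Prime (p : ℤ) := Nat.prime_iff_prime_int.mp hp
  have h1 : (Ideal.span {(p : ℤ)}).IsPrime :=
    (Ideal.span_singleton_prime hpi.ne_zero).mpr hpi
  have h2 : (Ideal.span {(p : ℤ)}).IsMaximal := h1.isMaximal (by
    rw [Ne, Ideal.span_singleton_eq_bot]
    exact hpi.ne_zero)
  obtain ⟨P, hP, hlo⟩ := Ideal.exists_maximal_ideal_liesOver_of_isIntegral (S := 𝓞 K)
    (Ideal.span {(p : ℤ)})
  obtain ⟨v, -, hv⟩ := place_of_ideal K p hp P hP.isPrime (by
    have h3 : (p : ℤ) ∈ P.under ℤ := by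
      rw [← hlo.over]
      exact Ideal.mem_span_singleton_self _
    rw [Ideal.under_def, Ideal.mem_comap] at h3
    simpa using h3)
  exact ⟨v, hv⟩

/-- the common end of the proofs -/
theorem uniform_of {G : Type*} [Group G] [TopologicalSpace G] {M : ℕ}
    (ρ : G →* Matrix (Fin M) (Fin M) ℂ) (hρ : Continuous ρ) (F : Set (Subgroup G)) (s n : ℕ)
    (hgap : ∃ ε : ℝ, 0 < ε ∧ ∀ Γ ∈ F, (∀ γ ∈ Γ, ∀ N : ℕ, 0 < N → γ ^ N = 1 → γ = 1) ∧
      ∃ (k : Type) (_ : Field k) (_ : NumberField k) (S : Finset (k →+* ℂ))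
        (_ : Realization ρ Γ k n S), S.card ≤ s ∧
        ∀ A : Matrix (Fin n) (Fin n) (𝓞 k), S.card ≤ s → IsUnit A →
          (∀ σ : k →+* ℂ, σ ∉ S → ∀ l : ℂ, ((emb σ).mapMatrix A).charpoly.IsRoot l → ‖l‖ ≤ 1) →
          (∀ N : ℕ, 0 < N → ¬ IsNilpotent (A ^ N - 1)) →
          ∃ σ ∈ S, ∃ l : ℂ, ((emb σ).mapMatrix A).charpoly.IsRoot l ∧ ε ≤ ‖l - 1‖) :
    UniformlyDiscrete F := by
  obtain ⟨ε, hε, h⟩ := hgap
  refine ⟨_, nhd ρ hρ ε hε, ?_⟩
  intro Γ hΓF g u hu hΓ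
  obtain ⟨htf, k, _, _, S, R, hSs, hk⟩ := h Γ hΓF
  refine final_step' R htf ε hε g u hu hΓ fun hnil => ?_
  have hunit : IsUnit (R.r ⟨g * u * g⁻¹, hΓ⟩) :=
    (Group.isUnit (⟨g * u * g⁻¹, hΓ⟩ : Γ)).map R.r
  exact hk _ hSs hunit (fun σ hσ l hl => R.comp' _ σ hσ l hl) hnil

/-- The torsion-free subgroups `Γ` with a realization of size `n`, with at most `s` noncompact
embeddings, over a number field `k` which is a Galois extension of `K` such that, for all `σ` in the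
Galois group, `σ ^ m` has at most `B` conjugates. -/
def GaloisFamily (K : Type) [Field K] (m B s n : ℕ) {G : Type*} [Group G] {M : ℕ}
    (ρ : G →* Matrix (Fin M) (Fin M) ℂ) : Set (Subgroup G) :=
  {Γ | (∀ γ ∈ Γ, ∀ N : ℕ, 0 < N → γ ^ N = 1 → γ = 1) ∧
    ∃ (k : Type) (_ : Field k) (_ : NumberField k) (_ : Algebra K k) (_ : IsGalois K k)
      (S : Finset (k →+* ℂ)) (_ : Realization ρ Γ k n S), S.card ≤ s ∧
      ∀ σ : Gal(k/K), (Set.range fun g : Gal(k/K) => g * σ ^ m * g⁻¹).ncard ≤ B}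

theorem uniform_galois (K : Type) [Field K] [NumberField K] (m B s n : ℕ) (hm : 1 ≤ m)
    {G : Type*} [Group G] [TopologicalSpace G] {M : ℕ}
    (ρ : G →* Matrix (Fin M) (Fin M) ℂ) (hρ : Continuous ρ) :
    UniformlyDiscrete (GaloisFamily K m B s n ρ) := by
  obtain ⟨v, hv⟩ := exists_place K 2 Nat.prime_two
  obtain ⟨C, hC, hgal, -, -⟩ := Pool.Agent.H627.LP.final (N := n) (k := K) (K := K) Nat.prime_two
    (r := 1) le_rfl (frK K 2 n) 1 (by simp) (frK K 2 n) (fun i => by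
      rw [pow_one]
      exact frK_hom 2 n i) (conj_one K 2 n) v hv (frK_insep v 2 Nat.prime_two hv n) hm B
  obtain ⟨ε, hε, hgap⟩ := gap_of K 2 n s Nat.prime_two C hC
  refine uniform_of ρ hρ _ s n ⟨ε, hε, ?_⟩
  rintro Γ ⟨htf, k, _, _, _, _, S, R, hSs, hB⟩
  refine ⟨htf, k, inferInstance, inferInstance, S, R, hSs, fun A hS' hA hout hN => ?_⟩
  refine hgap k A S (fun x hx hw => ?_) hS' hA hout hN
  obtain ⟨h, hlim, hlow, -⟩ := hgal k hB x hx hw
  exact ⟨h, hlim, hlow⟩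

end Pool.Agent.TH285.MG
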