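import Pool.Agent.TH285.MG.Fam

/-!
# More families
-/

set_option autoImplicit false

namespace Pool.Agent.TH285.MG

open NumberField Module Filter Topology
open Pool.Agent.W238.Leh (act act_smul)
open Pool.Agent.H225R3.Marg
open Pool.Agent.H627.LP (Wnd InsepN Conj)
open Pool.Agent.H420R3 (mi v_le_one v_lt_one_iff)

/-- conjugates of elements of an abelian subgroup -/
theorem card_conj {G : Type*} [Group G] [Finite G] (H : Subgroup G)
    (hab : ∀ x ∈ H, ∀ y ∈ H, x * y = y * x) (x : G) (hx : x ∈ H) :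
    (Set.range fun g : G => g * x * g⁻¹).ncard ≤ H.index := by
  classical
  let f : G ⧸ H → G := Quotient.lift (fun g : G => g * x * g⁻¹) (by
    intro a b hab'
    have h1 : a⁻¹ * b ∈ H := QuotientGroup.leftRel_apply.mp hab'
    have h2 := hab _ h1 x hx
    change a * x * a⁻¹ = b * x * b⁻¹
    have h3 : b = a * (a⁻¹ * b) := by group
    rw [h3, mul_inv_rev]
    calc a * x * a⁻¹ = a * (x * (a⁻¹ * b)) * ((a⁻¹ * b)⁻¹ * a⁻¹) := by group
      _ = a * (a⁻¹ * b * x) * ((a⁻¹ * b)⁻¹ * a⁻¹) := by rw [h2]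
      _ = a * (a⁻¹ * b) * x * ((a⁻¹ * b)⁻¹ * a⁻¹) := by group)
  have h1 : (Set.range fun g : G => g * x * g⁻¹) = Set.range f := by
    ext y
    constructor
    · rintro ⟨g, rfl⟩
      exact ⟨QuotientGroup.mk g, rfl⟩
    · rintro ⟨q, rfl⟩
      obtain ⟨g, rfl⟩ := QuotientGroup.mk_surjective q
      exact ⟨g, rfl⟩
  rw [h1, Subgroup.index, ← Set.image_univ, ← Set.ncard_univ]
  exact Set.ncard_image_le

theorem conj_of_virt {G : Type*} [Group G] [Finite G] (H : Subgroup G)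
    (hab : ∀ x ∈ H, ∀ y ∈ H, x * y = y * x) (t : ℕ) (ht : H.index ≤ t) (σ : G) :
    (Set.range fun g : G => g * σ ^ t.factorial * g⁻¹).ncard ≤ t := by
  have h0 : H.index ≠ 0 := Subgroup.index_ne_zero_of_finite
  obtain ⟨j, hj0, hj, hmem⟩ := Subgroup.exists_pow_mem_of_index_ne_zero h0 σ
  have h1 : σ ^ t.factorial ∈ H := by
    obtain ⟨c, hc⟩ := Nat.dvd_factorial hj0 (hj.trans ht)
    rw [hc, pow_mul]
    exact H.pow_mem hmem c
  exact (card_conj H hab _ h1).trans ht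

/-- families of number fields with a Frobenius automorphism at many primes -/
def FrobeniusFamily (K : Type) [Field K] [NumberField K] (P : Ideal (𝓞 K)) (m B s n : ℕ)
    {G : Type*} [Group G] {M : ℕ} (ρ : G →* Matrix (Fin M) (Fin M) ℂ) : Set (Subgroup G) :=
  {Γ | (∀ γ ∈ Γ, ∀ N : ℕ, 0 < N → γ ^ N = 1 → γ = 1) ∧
    ∃ (k : Type) (_ : Field k) (_ : NumberField k) (_ : Algebra K k)
      (S : Finset (k →+* ℂ)) (_ : Realization ρ Γ k n S) (τ : Gal(k/K))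
      (T : Finset (Ideal (𝓞 k))), S.card ≤ s ∧
      (∀ 𝔓 ∈ T, 𝔓.IsPrime ∧ 𝔓.under (𝓞 K) = P ∧
        ∀ a : 𝓞 k, τ • a - a ^ (P.absNorm ^ m) ∈ 𝔓) ∧
      finrank K k ≤ B * ∑ 𝔓 ∈ T, 𝔓.ramificationIdx (𝓞 K) * 𝔓.inertiaDeg (𝓞 K)}

/-- families of number fields with bounded residue degrees at many primes -/
def ResidueFamily (K : Type) [Field K] [NumberField K] (P : Ideal (𝓞 K)) (m B s n : ℕ)
    {G : Type*} [Group G] {M : ℕ} (ρ : G →* Matrix (Fin M) (Fin M) ℂ) : Set (Subgroup G) :=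
  {Γ | (∀ γ ∈ Γ, ∀ N : ℕ, 0 < N → γ ^ N = 1 → γ = 1) ∧
    ∃ (k : Type) (_ : Field k) (_ : NumberField k) (_ : Algebra K k)
      (S : Finset (k →+* ℂ)) (_ : Realization ρ Γ k n S) (T : Finset (Ideal (𝓞 k))),
      S.card ≤ s ∧
      (∀ 𝔓 ∈ T, 𝔓.IsPrime ∧ 𝔓.under (𝓞 K) = P ∧ 𝔓.inertiaDeg (𝓞 K) ≤ m) ∧
      finrank K k ≤ B * ∑ 𝔓 ∈ T, 𝔓.ramificationIdx (𝓞 K) * 𝔓.inertiaDeg (𝓞 K)}

theorem uniform_frobenius (K : Type) [Field K] [NumberField K] (p : ℕ) (hp : p.Prime)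
    (P : Ideal (𝓞 K)) (hP : P.IsPrime) (hpP : (p : 𝓞 K) ∈ P) (m B s n : ℕ) (hm : 1 ≤ m)
    {G : Type*} [Group G] [TopologicalSpace G] {M : ℕ}
    (ρ : G →* Matrix (Fin M) (Fin M) ℂ) (hρ : Continuous ρ) :
    UniformlyDiscrete (FrobeniusFamily K P m B s n ρ) := by
  obtain ⟨v, hvP, hv⟩ := place_of_ideal K p hp P hP hpP
  obtain ⟨C, hC, -, hfrob, -⟩ := Pool.Agent.H627.LP.final (N := n) (k := K) (K := K) hp
    (r := 1) le_rfl (frK K p n) 1 (by simp) (frK K p n) (fun i => by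
      rw [pow_one]
      exact frK_hom p n i) (conj_one K p n) v hv (frK_insep v p hp hv n) hm B
  obtain ⟨ε, hε, hgap⟩ := gap_of K p n s hp C hC
  refine uniform_of ρ hρ _ s n ⟨ε, hε, ?_⟩
  rintro Γ ⟨htf, k, _, _, _, S, R, τ, T, hSs, hT, hB⟩
  refine ⟨htf, k, inferInstance, inferInstance, S, R, hSs, fun A hS' hA hout hN => ?_⟩
  refine hgap k A S (fun x hx hw => ?_) hS' hA hout hN
  obtain ⟨h, hlim, hlow, -⟩ := hfrob k τ T (by rw [hvP]; exact hT) hB x hx hw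
  exact ⟨h, hlim, hlow⟩

theorem uniform_residue (K : Type) [Field K] [NumberField K] (p : ℕ) (hp : p.Prime)
    (P : Ideal (𝓞 K)) (hP : P.IsPrime) (hpP : (p : 𝓞 K) ∈ P) (m B s n : ℕ)
    {G : Type*} [Group G] [TopologicalSpace G] {M : ℕ}
    (ρ : G →* Matrix (Fin M) (Fin M) ℂ) (hρ : Continuous ρ) :
    UniformlyDiscrete (ResidueFamily K P m B s n ρ) := by
  obtain ⟨v, hvP, hv⟩ := place_of_ideal K p hp P hP hpP
  obtain ⟨C, hC, -, -, hres⟩ := Pool.Agent.H627.LP.final (N := n) (k := K) (K := K) hp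
    (r := 1) le_rfl (frK K p n) 1 (by simp) (frK K p n) (fun i => by
      rw [pow_one]
      exact frK_hom p n i) (conj_one K p n) v hv (frK_insep v p hp hv n)
      (m := m.factorial) (Nat.factorial_pos m) B
  obtain ⟨ε, hε, hgap⟩ := gap_of K p n s hp C hC
  refine uniform_of ρ hρ _ s n ⟨ε, hε, ?_⟩
  rintro Γ ⟨htf, k, _, _, _, S, R, T, hSs, hT, hB⟩
  refine ⟨htf, k, inferInstance, inferInstance, S, R, hSs, fun A hS' hA hout hN => ?_⟩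
  refine hgap k A S (fun x hx hw => ?_) hS' hA hout hN
  have hT' : ∀ 𝔓 ∈ T.filter (fun 𝔓 => 𝔓.inertiaDeg (𝓞 K) ≠ 0), 𝔓.IsPrime ∧
      𝔓.under (𝓞 K) = v.maximalIdeal.asIdeal ∧ 𝔓.inertiaDeg (𝓞 K) ∣ m.factorial := by
    intro 𝔓 h𝔓
    rw [Finset.mem_filter] at h𝔓
    obtain ⟨h1, h2, h3⟩ := hT 𝔓 h𝔓.1
    exact ⟨h1, h2.trans hvP.symm, Nat.dvd_factorial (Nat.pos_of_ne_zero h𝔓.2) h3⟩
  have hsum : ∑ 𝔓 ∈ T.filter (fun 𝔓 => 𝔓.inertiaDeg (𝓞 K) ≠ 0),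
      𝔓.ramificationIdx (𝓞 K) * 𝔓.inertiaDeg (𝓞 K) =
      ∑ 𝔓 ∈ T, 𝔓.ramificationIdx (𝓞 K) * 𝔓.inertiaDeg (𝓞 K) := by
    rw [Finset.sum_filter]
    refine Finset.sum_congr rfl fun 𝔓 _ => ?_
    split_ifs with h
    · rfl
    · push Not at h
      rw [h, mul_zero]
  obtain ⟨h, hlim, hlow, -⟩ := hres k _ hT' (by rw [hsum]; exact hB) x hx hw
  exact ⟨h, hlim, hlow⟩

end Pool.Agent.TH285.MG
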