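import Mathlib

/-!
# The forms expressing the characteristic polynomial of the `p`-th power of a matrix

`frm p n i` is an integral form of degree `p` in `n + 1` variables; its value at the coefficients of
the characteristic polynomial of an `n` by `n` matrix `A` is, up to sign, the coefficient number `i`
of the characteristic polynomial of `A ^ p`.  For a prime number `p` the form is congruent, up to
sign, to the `p`-th power of the variable number `i`.
-/

set_option autoImplicit false

namespace Pool.Agent.TH285.MG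

open Polynomial

section defs

variable {S : Type*} [CommRing S]

/-- the polynomial with given coefficients, in `S[X][Y]` -/
noncomputable def fp {n : ℕ} (c : Fin (n + 1) → S) : S[X][X] :=
  ∑ i : Fin (n + 1), C (C (c i)) * X ^ (i : ℕ)

/-- the resultant with respect to `Y` of `∑ c i * Y ^ i` and `Y ^ p - X` -/
noncomputable def NN (p : ℕ) {n : ℕ} (c : Fin (n + 1) → S) : S[X] :=
  resultant (fp c) (X ^ p - C X) n p

theorem fp_map {S' : Type*} [CommRing S'] (φ : S →+* S') {n : ℕ} (c : Fin (n + 1) → S) :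
    (fp c).map (mapRingHom φ) = fp fun i => φ (c i) := by
  unfold fp
  rw [Polynomial.map_sum]
  refine Finset.sum_congr rfl fun i _ => ?_
  simp

theorem NN_map {S' : Type*} [CommRing S'] (φ : S →+* S') (p : ℕ) {n : ℕ} (c : Fin (n + 1) → S) :
    NN p (fun i => φ (c i)) = (NN p c).map φ := by
  unfold NN
  rw [← fp_map]
  have h1 : (X ^ p - C X : S'[X][X]) = (X ^ p - C X : S[X][X]).map (mapRingHom φ) := by simp
  rw [h1, resultant_map_map]
  rfl

theorem NN_smul (p : ℕ) {n : ℕ} (r : S) (c : Fin (n + 1) → S) :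
    NN p (fun i => r * c i) = C (r ^ p) * NN p c := by
  unfold NN
  have h1 : (fp fun i => r * c i) = C (C r) * fp c := by
    unfold fp
    rw [Finset.mul_sum]
    refine Finset.sum_congr rfl fun i _ => ?_
    simp only [C_mul, mul_assoc]
  rw [h1, resultant_C_mul_left, ← C_pow]

theorem fp_natDegree_le {n : ℕ} (c : Fin (n + 1) → S) : (fp c).natDegree ≤ n := by
  unfold fp
  refine natDegree_sum_le_of_forall_le _ _ fun i _ => ?_
  refine (natDegree_C_mul_X_pow_le _ _).trans ?_
  omega

end defs

/-- in characteristic `p` -/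
theorem NN_char {S : Type*} [CommRing S] [IsDomain S] (p : ℕ) [hp : Fact p.Prime] [CharP S p]
    {n : ℕ} (c : Fin (n + 1) → S) :
    NN p c = (-1) ^ (n * p) * ∑ i : Fin (n + 1), C (c i ^ p) * X ^ (i : ℕ) := by
  have hp0 : 0 < p := hp.out.pos
  apply expand_injective hp0
  -- apply `X ↦ X ^ p`
  have h1 : expand S p (NN p c) = resultant (fp c) (X ^ p - C (X ^ p)) n p := by
    unfold NN
    have h2 : (fp c).map (expand S p : S[X] →+* S[X]) = fp c := by
      unfold fp
      rw [Polynomial.map_sum]
      refine Finset.sum_congr rfl fun i _ => ?_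
      simp
    have h3 : (X ^ p - C X : S[X][X]).map (expand S p : S[X] →+* S[X]) = X ^ p - C (X ^ p) := by
      simp
    conv_rhs => rw [← h2, ← h3]
    rw [resultant_map_map]
    rfl
  have h4 : (X ^ p - C (X ^ p) : S[X][X]) = (X - C X) ^ p := by
    have : CharP S[X][X] p := inferInstance
    rw [sub_pow_char, C_pow]
  rw [h1, h4, resultant_X_sub_C_pow_right _ _ _ _ (fp_natDegree_le c)]
  rw [map_mul, map_pow, map_neg, map_one]
  congr 1
  have h5 : eval X (fp c) = ∑ i : Fin (n + 1), C (c i) * X ^ (i : ℕ) := by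
    unfold fp
    rw [eval_finsetSum]
    refine Finset.sum_congr rfl fun i _ => ?_
    simp
  rw [h5, sum_pow_char, map_sum]
  refine Finset.sum_congr rfl fun i _ => ?_
  rw [map_mul, expand_C, map_pow (expand S p) X, expand_X, mul_pow, C_pow, ← pow_mul, ← pow_mul,
    mul_comm p]

/-- the determinant of a polynomial of a matrix -/
theorem det_aeval {E : Type*} [Field E] {n : ℕ} (A : Matrix (Fin n) (Fin n) E) (q : E[X])
    (hq : q.Splits) (hm : q.Monic) :
    (aeval A q).det = resultant A.charpoly q n q.natDegree := by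
  have h1 : resultant A.charpoly q n q.natDegree =
      (-1) ^ (n * q.natDegree) * (q.roots.map A.charpoly.eval).prod := by
    rw [resultant_comm, resultant_eq_prod_eval q A.charpoly n
      (by rw [Matrix.charpoly_natDegree_eq_dim, Fintype.card_fin]) hq, hm.leadingCoeff, one_pow,
      one_mul]
  rw [h1]
  let φ : E[X] →* E :=
    (Matrix.detMonoidHom : Matrix (Fin n) (Fin n) E →* E).comp (aeval A : E[X] →ₐ[E] _).toMonoidHom
  have h2 : (aeval A q).det = φ q := rfl
  have h3 : q = (q.roots.map fun a => X - C a).prod := hq.eq_prod_roots_of_monic hm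
  have h4 : ∀ a : E, φ (X - C a) = (-1) ^ n * A.charpoly.eval a := by
    intro a
    change (aeval A (X - C a)).det = _
    rw [map_sub, aeval_X, aeval_C, Matrix.eval_charpoly, ← neg_sub, Matrix.det_neg,
      Fintype.card_fin]
    rfl
  rw [h2]
  conv_lhs => rw [h3]
  rw [map_multiset_prod, Multiset.map_map]
  have h5 : (q.roots.map (φ ∘ fun a => X - C a)) = q.roots.map fun a => (-1) ^ n * A.charpoly.eval a :=
    Multiset.map_congr rfl fun a _ => h4 a
  rw [h5, Multiset.prod_map_mul, Multiset.map_const', Multiset.prod_replicate,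
    hq.natDegree_eq_card_roots, pow_mul]

theorem fp_coeff {R : Type*} [CommRing R] {n : ℕ} (P : R[X]) (h : P.natDegree ≤ n) :
    (fp fun i : Fin (n + 1) => P.coeff i) = P.map C := by
  unfold fp
  conv_rhs => rw [P.as_sum_range' (n + 1) (by omega)]
  rw [Polynomial.map_sum, Finset.sum_range]
  refine Finset.sum_congr rfl fun i _ => ?_
  rw [map_monomial, C_mul_X_pow_eq_monomial]

/-- the characteristic polynomial of the `p`-th power -/
theorem NN_charpoly {R : Type*} [CommRing R] [IsDomain R] (p : ℕ) (hp : 0 < p) {n : ℕ}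
    (A : Matrix (Fin n) (Fin n) R) :
    NN p (fun i : Fin (n + 1) => A.charpoly.coeff i) = (-1) ^ n * (A ^ p).charpoly := by
  classical
  let E := AlgebraicClosure (FractionRing R[X])
  let ι : R[X] →+* E := (algebraMap (FractionRing R[X]) E).comp (algebraMap R[X] (FractionRing R[X]))
  have hι : Function.Injective ι :=
    (algebraMap (FractionRing R[X]) E).injective.comp (IsFractionRing.injective R[X] _)
  apply hι
  set t : E := ι X with ht
  set A' : Matrix (Fin n) (Fin n) E := A.map (ι.comp C) with hA'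
  have hch : ∀ B : Matrix (Fin n) (Fin n) R, (B.map (ι.comp C)).charpoly =
      B.charpoly.map (ι.comp C) := fun B => Matrix.charpoly_map B (ι.comp C)
  have h1 : ι (NN p fun i : Fin (n + 1) => A.charpoly.coeff i) =
      resultant A'.charpoly (X ^ p - C t) n p := by
    unfold NN
    rw [fp_coeff _ (by rw [Matrix.charpoly_natDegree_eq_dim, Fintype.card_fin]),
      ← resultant_map_map, hch, Polynomial.map_map, Polynomial.map_sub, Polynomial.map_pow,
      map_X, map_C]
  have hdeg : (X ^ p - C t : E[X]).natDegree = p := natDegree_X_pow_sub_C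
  have hmon : (X ^ p - C t : E[X]).Monic := monic_X_pow_sub_C t hp.ne'
  have h2 := det_aeval A' (X ^ p - C t) (IsAlgClosed.splits _) hmon
  rw [hdeg] at h2
  rw [h1, ← h2, map_sub, map_pow, aeval_X, aeval_C, map_mul, map_pow, map_neg, map_one]
  have h3 : A' ^ p = (A ^ p).map (ι.comp C) := by
    have := map_pow (ι.comp C).mapMatrix A p
    exact this.symm
  have h4 : ι (A ^ p).charpoly = eval t (A' ^ p).charpoly := by
    rw [h3, hch, eval_map, ht]
    conv_lhs => rw [← Polynomial.eval₂_C_X (p := (A ^ p).charpoly), hom_eval₂]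
  rw [h4, Matrix.eval_charpoly, ← neg_sub, Matrix.det_neg, Fintype.card_fin]
  rfl

open MvPolynomial in
/-- the form number `i` -/
noncomputable def frm (p n : ℕ) (i : Fin (n + 1)) : MvPolynomial (Fin (n + 1)) ℤ :=
  (NN p fun j : Fin (n + 1) => (MvPolynomial.X j : MvPolynomial (Fin (n + 1)) ℤ)).coeff i

/-- evaluation -/
theorem frm_eval {R : Type*} [CommRing R] (p n : ℕ) (c : Fin (n + 1) → R) (i : Fin (n + 1)) :
    MvPolynomial.aeval c (frm p n i) = (NN p c).coeff i := by
  have h1 := NN_map (MvPolynomial.aeval c : MvPolynomial (Fin (n + 1)) ℤ →ₐ[ℤ] R).toRingHom p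
    (fun j : Fin (n + 1) => (MvPolynomial.X j : MvPolynomial (Fin (n + 1)) ℤ))
  have h2 : (fun j : Fin (n + 1) => (MvPolynomial.aeval c :
      MvPolynomial (Fin (n + 1)) ℤ →ₐ[ℤ] R).toRingHom (MvPolynomial.X j)) = c := by
    funext j
    exact MvPolynomial.aeval_X c j
  rw [h2] at h1
  rw [h1, coeff_map]
  rfl

/-- the forms and powers of matrices -/
theorem frm_charpoly {R : Type*} [CommRing R] [IsDomain R] (p : ℕ) (hp : 0 < p) {n : ℕ}
    (A : Matrix (Fin n) (Fin n) R) (i : Fin (n + 1)) :
    MvPolynomial.aeval (fun j : Fin (n + 1) => A.charpoly.coeff j) (frm p n i) =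
      (-1) ^ n * (A ^ p).charpoly.coeff i := by
  rw [frm_eval, NN_charpoly p hp]
  have h1 : ((-1) ^ n : R[X]) = C ((-1) ^ n) := by simp
  rw [h1, coeff_C_mul]

/-- a polynomial with the scaling property is homogeneous -/
theorem homog_of_scale {σ : Type*} (F : MvPolynomial σ ℤ) (p : ℕ)
    (h : MvPolynomial.aeval (fun j => (X : (MvPolynomial σ ℤ)[X]) * C (MvPolynomial.X j)) F =
      C F * X ^ p) : F.IsHomogeneous p := by
  classical
  have key : ∀ G : MvPolynomial σ ℤ, MvPolynomial.aeval
      (fun j => (X : (MvPolynomial σ ℤ)[X]) * C (MvPolynomial.X j)) G =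
      ∑ m ∈ G.support, C (MvPolynomial.monomial m (G.coeff m)) * X ^ m.degree := by
    intro G
    conv_lhs => rw [G.as_sum, map_sum]
    refine Finset.sum_congr rfl fun m _ => ?_
    rw [MvPolynomial.aeval_monomial, MvPolynomial.monomial_eq, C_mul]
    simp only [mul_pow, Finsupp.prod_mul]
    have h1 : (m.prod fun _ e => (X : (MvPolynomial σ ℤ)[X]) ^ e) = X ^ m.degree := by
      rw [Finsupp.prod, Finset.prod_pow_eq_pow_sum, Finsupp.degree_apply]
    rw [h1]
    have h2 : (m.prod fun j e => (C (MvPolynomial.X j) : (MvPolynomial σ ℤ)[X]) ^ e) =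
        C (m.prod fun j e => MvPolynomial.X j ^ e) := by
      rw [Finsupp.prod, Finsupp.prod, map_prod]
      simp
    rw [h2]
    have h3 : algebraMap ℤ (MvPolynomial σ ℤ)[X] (G.coeff m) =
        C (MvPolynomial.C (G.coeff m)) := by simp
    rw [h3]
    ring
  intro m hm
  by_contra hne
  have h1 := congrArg (fun q => (q.coeff (m.degree)).coeff m) ((key F).symm.trans h)
  simp only [finsetSum_coeff, coeff_C_mul, coeff_X_pow, MvPolynomial.coeff_sum] at h1
  have hne' : m.degree ≠ p := by
    intro h2
    apply hne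
    rw [← h2, Finsupp.degree_eq_weight_one]
    rfl
  rw [if_neg hne'] at h1
  rw [Finset.sum_eq_single m] at h1
  · simp at h1
    exact hm h1
  · intro m' _ hm'
    split_ifs with h2
    · rw [mul_one, MvPolynomial.coeff_monomial, if_neg hm']
    · simp
  · intro h2
    rw [MvPolynomial.notMem_support_iff] at h2
    exact absurd h2 hm

theorem frm_hom (p n : ℕ) (i : Fin (n + 1)) : (frm p n i).IsHomogeneous p := by
  apply homog_of_scale
  have h0 := frm_eval p n
    (fun j => (X : (MvPolynomial (Fin (n + 1)) ℤ)[X]) * C (MvPolynomial.X j)) i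
  refine Eq.trans ?_ (h0.trans ?_)
  · rw [MvPolynomial.aeval_def, MvPolynomial.aeval_def]
    congr 1
  rw [NN_smul, coeff_C_mul]
  have h1 := NN_map (C : MvPolynomial (Fin (n + 1)) ℤ →+* (MvPolynomial (Fin (n + 1)) ℤ)[X]) p
    (fun j : Fin (n + 1) => (MvPolynomial.X j : MvPolynomial (Fin (n + 1)) ℤ))
  rw [h1, coeff_map, mul_comm]
  rfl

/-- the forms modulo `p` -/
theorem frm_mod (p : ℕ) [hp : Fact p.Prime] (n : ℕ) (i : Fin (n + 1)) (m : Fin (n + 1) →₀ ℕ) :
    (((frm p n i).coeff m : ℤ) : ZMod p) =
      if m = Finsupp.single i p then (-1) ^ (n * p) else 0 := by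
  classical
  have h1 : (((frm p n i).coeff m : ℤ) : ZMod p) =
      ((frm p n i).map (Int.castRingHom (ZMod p))).coeff m := by
    rw [MvPolynomial.coeff_map]
    rfl
  have h2 : (frm p n i).map (Int.castRingHom (ZMod p)) = (-1) ^ (n * p) * MvPolynomial.X i ^ p := by
    have h3 := NN_map (MvPolynomial.map (Int.castRingHom (ZMod p))) p
      (fun j : Fin (n + 1) => (MvPolynomial.X j : MvPolynomial (Fin (n + 1)) ℤ))
    have h4 : (frm p n i).map (Int.castRingHom (ZMod p)) =
        ((NN p fun j : Fin (n + 1) => (MvPolynomial.X j : MvPolynomial (Fin (n + 1)) ℤ)).map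
          (MvPolynomial.map (Int.castRingHom (ZMod p)))).coeff i := by
      rw [coeff_map]
      rfl
    rw [h4, ← h3]
    simp only [MvPolynomial.map_X]
    rw [NN_char p]
    have h5 : ((-1) ^ (n * p) : (MvPolynomial (Fin (n + 1)) (ZMod p))[X]) =
        C ((-1) ^ (n * p)) := by simp
    rw [h5, coeff_C_mul, finsetSum_coeff]
    congr 1
    rw [Finset.sum_eq_single i]
    · rw [coeff_C_mul, coeff_X_pow, if_pos rfl, mul_one]
    · intro j _ hj
      rw [coeff_C_mul, coeff_X_pow, if_neg, mul_zero]
      intro h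
      exact hj (Fin.ext h.symm)
    · simp
  rw [h1, h2]
  have h6 : ((-1) ^ (n * p) : MvPolynomial (Fin (n + 1)) (ZMod p)) =
      MvPolynomial.C ((-1) ^ (n * p)) := by simp
  rw [h6, MvPolynomial.coeff_C_mul, MvPolynomial.X_pow_eq_monomial, MvPolynomial.coeff_monomial]
  by_cases h : m = Finsupp.single i p
  · rw [if_pos h, if_pos h.symm, mul_one]
  · rw [if_neg h, if_neg (Ne.symm h), mul_zero]

end Pool.Agent.TH285.MG
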