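import Pool.Agent.TH285.MG.Pts

/-!
# The gap for eigenvalues
-/

set_option autoImplicit false
set_option linter.unusedSectionVars false

namespace Pool.Agent.TH285.MG

open NumberField Module Filter Topology
open Pool.Agent.W238.Leh (act act_smul)
open Pool.Agent.H225R3.Marg (emb eig_pow' nilp_of_roots)
open Pool.Agent.H627.LP (Wnd InsepN Conj)
open Pool.Agent.H420R3 (mi v_le_one v_lt_one_iff)

variable {K : Type} [Field K] [NumberField K] {L : Type} [Field L] [NumberField L] [Algebra K L]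

/-- coefficients at an embedding -/
theorem coeff_bound {n : ℕ} (A : Matrix (Fin n) (Fin n) (𝓞 L)) (σ : L →+* ℂ) (R : ℝ) (hR : 1 ≤ R)
    (h : ∀ l : ℂ, ((emb σ).mapMatrix A).charpoly.IsRoot l → ‖l‖ ≤ R) (e : ℕ) (he : 0 < e)
    (i : Fin (n + 1)) : ‖σ (xv (A ^ e) i)‖ ≤ 2 ^ n * R ^ (n * e) := by
  have h1 : σ (xv (A ^ e) i) = (((A ^ e).charpoly.map (emb σ)).coeff i) := by
    rw [Polynomial.coeff_map]
    rfl
  have hR1 : 1 ≤ R ^ e := one_le_pow₀ hR
  rw [h1]
  have h2 := Polynomial.coeff_bdd_of_roots_le (B := R ^ e) (d := n) (emb σ)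
    (A ^ e).charpoly_monic (IsAlgClosed.splits _)
    (by rw [Matrix.charpoly_natDegree_eq_dim, Fintype.card_fin]) (by
      intro z hz
      have hz' := (Polynomial.mem_roots'.mp hz).2
      rw [← charpoly_emb, map_pow] at hz'
      obtain ⟨l, hl, rfl⟩ := eig_pow' _ e he z hz'
      rw [norm_pow]
      exact pow_le_pow_left₀ (norm_nonneg _) (h l hl) e) i
  refine h2.trans ?_
  rw [max_eq_left hR1, ← pow_mul, mul_comm e n, mul_comm]
  refine mul_le_mul_of_nonneg_right ?_ (by positivity)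
  exact_mod_cast Nat.choose_le_two_pow n (n / 2)

theorem mulHeight_xv_le {n : ℕ} (A : Matrix (Fin n) (Fin n) (𝓞 L)) (S : Finset (L →+* ℂ)) (R : ℝ)
    (hR : 1 ≤ R)
    (hout : ∀ σ : L →+* ℂ, σ ∉ S → ∀ l : ℂ, ((emb σ).mapMatrix A).charpoly.IsRoot l → ‖l‖ ≤ 1)
    (hin : ∀ σ ∈ S, ∀ l : ℂ, ((emb σ).mapMatrix A).charpoly.IsRoot l → ‖l‖ ≤ R)
    (e : ℕ) (he : 0 < e) :
    Height.mulHeight (xv (A ^ e)) ≤
      ((2 : ℝ) ^ n) ^ (finrank ℚ L) * (R ^ (n * e)) ^ (2 * S.card) := by
  classical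
  rw [NumberField.mulHeight_eq (xv_ne _)]
  have hfin : (∏ᶠ v : FinitePlace L, ⨆ i, v (xv (A ^ e) i)) = 1 := by
    apply finprod_eq_one_of_forall_eq_one
    intro v
    apply le_antisymm
    · exact ciSup_le fun i => v_le_one v _
    · have h1 : v (xv (A ^ e) (Fin.last n)) ≤ ⨆ i, v (xv (A ^ e) i) :=
        le_ciSup (f := fun i => v (xv (A ^ e) i)) (Set.finite_range _).bddAbove (Fin.last n)
      rwa [xv_last, map_one] at h1
  rw [hfin, mul_one]
  set B : InfinitePlace L → ℝ := fun v => if v.embedding ∈ S then R ^ (n * e) else 1 with hB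
  have hRR : 1 ≤ R ^ (n * e) := one_le_pow₀ hR
  have hB1 : ∀ v, 1 ≤ B v := by
    intro v
    simp only [hB]
    split_ifs
    · exact hRR
    · exact le_rfl
  have hv : ∀ v : InfinitePlace L, (⨆ i, v (xv (A ^ e) i)) ≤ 2 ^ n * B v := by
    intro v
    refine ciSup_le fun i => ?_
    rw [← InfinitePlace.norm_embedding_eq]
    simp only [hB]
    split_ifs with h
    · exact coeff_bound A v.embedding R hR (hin _ h) e he i
    · have h1 := coeff_bound A v.embedding 1 le_rfl (hout _ h) e he i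
      rwa [one_pow] at h1
  have hnn : ∀ v : InfinitePlace L, 0 ≤ ⨆ i, v (xv (A ^ e) i) :=
    fun v => Real.iSup_nonneg fun i => apply_nonneg _ _
  calc (∏ v : InfinitePlace L, (⨆ i, v (xv (A ^ e) i)) ^ v.mult)
      ≤ ∏ v : InfinitePlace L, (2 ^ n * B v) ^ v.mult :=
        Finset.prod_le_prod (fun v _ => pow_nonneg (hnn v) _)
          fun v _ => pow_le_pow_left₀ (hnn v) (hv v) _
    _ = (∏ v : InfinitePlace L, ((2 : ℝ) ^ n) ^ v.mult) * ∏ v : InfinitePlace L, B v ^ v.mult := by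
        rw [← Finset.prod_mul_distrib]
        exact Finset.prod_congr rfl fun v _ => mul_pow _ _ _
    _ = ((2 : ℝ) ^ n) ^ (finrank ℚ L) * ∏ v : InfinitePlace L, B v ^ v.mult := by
        rw [Finset.prod_pow_eq_pow_sum, InfinitePlace.sum_mult_eq]
    _ ≤ ((2 : ℝ) ^ n) ^ (finrank ℚ L) * (R ^ (n * e)) ^ (2 * S.card) := by
        refine mul_le_mul_of_nonneg_left ?_ (by positivity)
        have h1 : ∀ v : InfinitePlace L, B v ^ v.mult ≤
            if v.embedding ∈ S then (R ^ (n * e)) ^ 2 else 1 := by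
          intro v
          have hm : v.mult ≤ 2 := by
            unfold InfinitePlace.mult
            split_ifs <;> omega
          simp only [hB]
          split_ifs with h
          · exact pow_le_pow_right₀ hRR hm
          · rw [one_pow]
        calc (∏ v : InfinitePlace L, B v ^ v.mult)
            ≤ ∏ v : InfinitePlace L, (if v.embedding ∈ S then (R ^ (n * e)) ^ 2 else 1) :=
              Finset.prod_le_prod (fun v _ => pow_nonneg (by linarith [hB1 v]) _) fun v _ => h1 v
          _ = ((R ^ (n * e)) ^ 2) ^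
                (Finset.univ.filter fun v : InfinitePlace L => v.embedding ∈ S).card := by
              rw [Finset.prod_ite, Finset.prod_const, Finset.prod_const_one, mul_one]
          _ ≤ ((R ^ (n * e)) ^ 2) ^ S.card := by
              refine pow_le_pow_right₀ (one_le_pow₀ hRR) ?_
              refine Finset.card_le_card_of_injOn (fun v => v.embedding) ?_ ?_
              · intro v hv
                simpa using hv
              · exact (InfinitePlace.embedding_injective L).injOn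
          _ = (R ^ (n * e)) ^ (2 * S.card) := by rw [← pow_mul]

/-- the lower bound for heights gives a gap for the eigenvalues -/
theorem gap_of (K : Type) [Field K] [NumberField K] (p n s : ℕ) (hp : p.Prime) (C : ℝ)
    (hC : 0 < C) : ∃ ε : ℝ, 0 < ε ∧
    ∀ (L : Type) [Field L] [NumberField L] [Algebra K L] (A : Matrix (Fin n) (Fin n) (𝓞 L))
      (S : Finset (L →+* ℂ)),
      (∀ x : Fin (n + 1) → L, x ≠ 0 → Wnd (frK K p n) x →
        ∃ h : ℝ, Tendsto (fun j : ℕ => Height.logHeight ((act (frK K p n))^[j] x) /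
            ((finrank ℚ L : ℝ) * ((p ^ 1 : ℕ) : ℝ) ^ j)) atTop (𝓝 h) ∧
          1 / (C * finrank K L) ≤ h) →
      S.card ≤ s → IsUnit A →
      (∀ σ : L →+* ℂ, σ ∉ S → ∀ l : ℂ, ((emb σ).mapMatrix A).charpoly.IsRoot l → ‖l‖ ≤ 1) →
      (∀ N : ℕ, 0 < N → ¬ IsNilpotent (A ^ N - 1)) →
      ∃ σ ∈ S, ∃ l : ℂ, ((emb σ).mapMatrix A).charpoly.IsRoot l ∧ ε ≤ ‖l - 1‖ := by
  set ε : ℝ := 1 / (4 * C * (n * s + 1)) with hε
  have hε0 : 0 < ε := by positivity
  refine ⟨ε, hε0, ?_⟩
  intro L _ _ _ A S hlow hSs hA hout hN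
  by_contra hcon
  push Not at hcon
  have hR : (1 : ℝ) ≤ 1 + ε := by linarith
  have hin : ∀ σ ∈ S, ∀ l : ℂ, ((emb σ).mapMatrix A).charpoly.IsRoot l → ‖l‖ ≤ 1 + ε := by
    intro σ hσ l hl
    have h1 := hcon σ hσ l hl
    have h2 : ‖l‖ ≤ ‖l - 1‖ + ‖(1 : ℂ)‖ := by
      have := norm_add_le (l - 1) 1
      rwa [sub_add_cancel] at this
    rw [norm_one] at h2
    linarith
  obtain ⟨h, hlim, hlow'⟩ := hlow (xv A) (xv_ne A) (xv_wnd p hp.two_le A hA hN)
  set d : ℕ := finrank ℚ L with hd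
  have hd0 : (0 : ℝ) < d := by
    have : 0 < finrank ℚ L := finrank_pos
    exact_mod_cast this
  have hp1 : (1 : ℝ) < p := by exact_mod_cast hp.one_lt
  have hlogR : Real.log (1 + ε) ≤ ε := by
    have := Real.log_le_sub_one_of_pos (show 0 < 1 + ε by linarith)
    linarith
  have hlogR0 : 0 ≤ Real.log (1 + ε) := Real.log_nonneg hR
  have hub : ∀ j : ℕ, Height.logHeight ((act (frK K p n))^[j] (xv A)) /
      ((d : ℝ) * ((p ^ 1 : ℕ) : ℝ) ^ j) ≤
      n * Real.log 2 * ((p : ℝ)⁻¹) ^ j + 2 * s * n * ε / d := by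
    intro j
    obtain ⟨u, hu, h1⟩ := act_iter_xv (K := K) p hp.pos A j
    rw [h1, Height.logHeight_smul_eq_logHeight _ hu]
    have hpj : 0 < p ^ j := Nat.pow_pos hp.pos
    have h2 := mulHeight_xv_le A S (1 + ε) hR hout hin (p ^ j) hpj
    have hmh : 0 < Height.mulHeight (xv (A ^ p ^ j)) := Height.mulHeight_pos _
    have h3 : Height.logHeight (xv (A ^ p ^ j)) ≤
        d * (n * Real.log 2) + 2 * S.card * (n * p ^ j * Real.log (1 + ε)) := by
      rw [Height.logHeight]
      refine (Real.log_le_log hmh h2).trans ?_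
      rw [Real.log_mul (by positivity) (by positivity), Real.log_pow, Real.log_pow, Real.log_pow,
        Real.log_pow]
      push_cast
      rw [hd]
    have hpj' : (0 : ℝ) < (p : ℝ) ^ j := by positivity
    have h4 : (2 * S.card * (n * p ^ j * Real.log (1 + ε)) : ℝ) ≤
        2 * s * (n * p ^ j * ε) := by
      have hs' : (S.card : ℝ) ≤ s := by exact_mod_cast hSs
      gcongr
    rw [pow_one, div_le_iff₀ (by positivity)]
    have h5 : (n * Real.log 2 * ((p : ℝ)⁻¹) ^ j + 2 * s * n * ε / d) * (d * (p : ℝ) ^ j) =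
        d * (n * Real.log 2) + 2 * s * (n * p ^ j * ε) := by
      rw [inv_pow]
      field_simp
    rw [h5]
    linarith
  have hlim2 : Tendsto (fun j : ℕ => (n : ℝ) * Real.log 2 * ((p : ℝ)⁻¹) ^ j +
      2 * s * n * ε / d) atTop (𝓝 ((n : ℝ) * Real.log 2 * 0 + 2 * s * n * ε / d)) := by
    refine Tendsto.add_const _ (Tendsto.const_mul _ ?_)
    exact tendsto_pow_atTop_nhds_zero_of_lt_one (by positivity) (inv_lt_one_of_one_lt₀ hp1)
  have hle := le_of_tendsto_of_tendsto' hlim hlim2 hub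
  rw [mul_zero, zero_add] at hle
  have hK : (finrank K L : ℝ) ≤ d := by
    have h1 := finrank_mul_finrank ℚ K L
    have h2 : 0 < finrank ℚ K := finrank_pos
    have h3 : finrank K L ≤ finrank ℚ L := by
      rw [← h1]
      exact Nat.le_mul_of_pos_left _ h2
    exact_mod_cast h3
  have hK0 : (0 : ℝ) < finrank K L := by
    have : Module.Finite K L := Module.Finite.of_restrictScalars_finite ℚ K L
    have : 0 < finrank K L := finrank_pos
    exact_mod_cast this
  have h1 : 1 / (C * d) ≤ 2 * s * n * ε / d := by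
    refine le_trans ?_ (hlow'.trans hle)
    exact one_div_le_one_div_of_le (by positivity) (mul_le_mul_of_nonneg_left hK hC.le)
  rw [div_le_div_iff₀ (by positivity) hd0] at h1
  have h2 : 1 ≤ 2 * s * n * ε * C := by
    have h3 : 1 * (d : ℝ) ≤ 2 * s * n * ε * C * d := by linarith
    exact le_of_mul_le_mul_right h3 hd0
  rw [hε] at h2
  have h3 : 2 * (s : ℝ) * n * (1 / (4 * C * (n * s + 1))) * C = (n * s) / (2 * (n * s + 1)) := by
    field_simp
    ring
  rw [h3, le_div_iff₀ (by positivity)] at h2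
  have h4 : (0 : ℝ) ≤ n * s := by positivity
  linarith

end Pool.Agent.TH285.MG
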