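import Pool.Agent.TH285.MG.Forms
import Pool.Agent.H627.LP.Fin
import Pool.Agent.H225R3.Marg10

/-!
# Characteristic polynomials as points of projective space
-/

set_option autoImplicit false
set_option linter.unusedSectionVars false

namespace Pool.Agent.TH285.MG

open NumberField Module Filter Topology
open Pool.Agent.W238.Leh (act act_smul)
open Pool.Agent.H225R3.Marg (emb eig_pow' nilp_of_roots)
open Pool.Agent.H627.LP (Wnd InsepN)
open Pool.Agent.H420R3 (mi v_le_one v_lt_one_iff)

variable {K : Type} [Field K] [NumberField K] {L : Type} [Field L] [NumberField L] [Algebra K L]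

/-- the forms over a field -/
noncomputable def frK (K : Type) [Field K] (p n : ℕ) (i : Fin (n + 1)) :
    MvPolynomial (Fin (n + 1)) K :=
  MvPolynomial.map (Int.castRingHom K) (frm p n i)

theorem frK_hom (p n : ℕ) (i : Fin (n + 1)) : (frK K p n i).IsHomogeneous p :=
  (frm_hom p n i).map _

/-- the coefficients of the characteristic polynomial -/
noncomputable def xv {n : ℕ} (A : Matrix (Fin n) (Fin n) (𝓞 L)) : Fin (n + 1) → L :=
  fun i => ((A.charpoly.coeff i : 𝓞 L) : L)

theorem xv_last {n : ℕ} (A : Matrix (Fin n) (Fin n) (𝓞 L)) : xv A (Fin.last n) = 1 := by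
  have h1 : A.charpoly.coeff n = 1 := by
    have h2 := A.charpoly_monic
    have h3 : A.charpoly.natDegree = n := by
      rw [Matrix.charpoly_natDegree_eq_dim, Fintype.card_fin]
    rw [Polynomial.Monic, Polynomial.leadingCoeff, h3] at h2
    exact h2
  unfold xv
  rw [Fin.val_last, h1]
  exact map_one (algebraMap (𝓞 L) L)

theorem xv_ne {n : ℕ} (A : Matrix (Fin n) (Fin n) (𝓞 L)) : xv A ≠ 0 := by
  intro h
  have h1 := congrFun h (Fin.last n)
  rw [xv_last] at h1
  exact one_ne_zero h1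

theorem act_xv {n : ℕ} (p : ℕ) (hp : 0 < p) (A : Matrix (Fin n) (Fin n) (𝓞 L)) :
    act (frK K p n) (xv A) = ((-1) ^ n : L) • xv (A ^ p) := by
  funext i
  have h := congrArg (algebraMap (𝓞 L) L) (frm_charpoly p hp A i)
  rw [MvPolynomial.aeval_def, MvPolynomial.eval₂_comp_left, map_mul, map_pow, map_neg,
    map_one] at h
  change MvPolynomial.aeval (xv A) (frK K p n i) = _
  rw [frK, MvPolynomial.aeval_def, MvPolynomial.eval₂_map]
  have h2 : (algebraMap K L).comp (Int.castRingHom K) =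
      (algebraMap (𝓞 L) L).comp (algebraMap ℤ (𝓞 L)) := RingHom.ext_int _ _
  rw [h2]
  exact h

theorem act_iter_xv {n : ℕ} (p : ℕ) (hp : 0 < p) (A : Matrix (Fin n) (Fin n) (𝓞 L)) (j : ℕ) :
    ∃ u : L, u ≠ 0 ∧ (act (frK K p n))^[j] (xv A) = u • xv (A ^ p ^ j) := by
  induction j with
  | zero => exact ⟨1, one_ne_zero, by simp⟩
  | succ j ih =>
    obtain ⟨u, hu, h⟩ := ih
    refine ⟨u ^ p * (-1) ^ n, by
      apply mul_ne_zero (pow_ne_zero _ hu)
      exact pow_ne_zero _ (neg_ne_zero.mpr one_ne_zero), ?_⟩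
    rw [Function.iterate_succ_apply', h, act_smul (frK_hom p n), act_xv p hp, smul_smul,
      ← pow_mul, ← pow_succ]

/-- equal points give equal characteristic polynomials -/
theorem charpoly_eq {n : ℕ} {A B : Matrix (Fin n) (Fin n) (𝓞 L)} {c : L}
    (h : xv A = c • xv B) : A.charpoly = B.charpoly := by
  have h1 := congrFun h (Fin.last n)
  rw [Pi.smul_apply, xv_last, xv_last, smul_eq_mul, mul_one] at h1
  rw [← h1, one_smul] at h
  apply Polynomial.ext
  intro i
  by_cases hi : i < n + 1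
  · have h2 := congrFun h ⟨i, hi⟩
    exact RingOfIntegers.coe_injective h2
  · have h3 : ∀ M : Matrix (Fin n) (Fin n) (𝓞 L), M.charpoly.coeff i = 0 := fun M => by
      apply Polynomial.coeff_eq_zero_of_natDegree_lt
      rw [Matrix.charpoly_natDegree_eq_dim, Fintype.card_fin]
      omega
    rw [h3, h3]

theorem charpoly_emb {n : ℕ} (A : Matrix (Fin n) (Fin n) (𝓞 L)) (σ : L →+* ℂ) :
    ((emb σ).mapMatrix A).charpoly = A.charpoly.map (emb σ) := by
  rw [← Matrix.charpoly_map]
  rfl

theorem emb_injective (σ : L →+* ℂ) : Function.Injective (emb σ) :=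
  σ.injective.comp (FaithfulSMul.algebraMap_injective (𝓞 L) L)

/-- the eigenvalues of a power -/
theorem root_pow {n : ℕ} (A : Matrix (Fin n) (Fin n) ℂ) (e : ℕ) (z : ℂ)
    (h : A.charpoly.IsRoot z) : (A ^ e).charpoly.IsRoot (z ^ e) := by
  rw [← Matrix.mem_spectrum_iff_isRoot_charpoly] at h ⊢
  exact spectrum.pow_mem_pow A e h

/-- points of matrices without power which is unipotent are wandering -/
theorem xv_wnd {n : ℕ} (p : ℕ) (hp : 2 ≤ p) (A : Matrix (Fin n) (Fin n) (𝓞 L)) (hA : IsUnit A)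
    (hN : ∀ N : ℕ, 0 < N → ¬ IsNilpotent (A ^ N - 1)) : Wnd (frK K p n) (xv A) := by
  rintro ⟨a, b, hab, c, hc, h⟩
  obtain ⟨u, hu, h1⟩ := act_iter_xv (K := K) p (by omega) A a
  obtain ⟨w, hw, h2⟩ := act_iter_xv (K := K) p (by omega) A b
  rw [h1, h2, smul_smul] at h
  have h3 : xv (A ^ p ^ b) = (w⁻¹ * (c * u)) • xv (A ^ p ^ a) := by
    rw [mul_smul, ← h, smul_smul, inv_mul_cancel₀ hw, one_smul]
  have h4 := charpoly_eq h3
  -- the characteristic polynomial of a power of `A` is invariant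
  obtain ⟨B, Q, e, hB, hQ, he, hBe⟩ : ∃ (B : Matrix (Fin n) (Fin n) (𝓞 L)) (Q e : ℕ),
      (B ^ Q).charpoly = B.charpoly ∧ 2 ≤ Q ∧ 0 < e ∧ B = A ^ e := by
    rcases lt_or_gt_of_ne hab with hlt | hlt
    · refine ⟨A ^ p ^ a, p ^ (b - a), p ^ a, ?_, ?_, by positivity, rfl⟩
      · rw [← pow_mul, ← pow_add, Nat.add_sub_cancel' hlt.le]
        exact h4
      · calc 2 ≤ p := hp
          _ = p ^ 1 := (pow_one p).symm
          _ ≤ p ^ (b - a) := Nat.pow_le_pow_right (by omega) (by omega)
    · refine ⟨A ^ p ^ b, p ^ (a - b), p ^ b, ?_, ?_, by positivity, rfl⟩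
      · rw [← pow_mul, ← pow_add, Nat.add_sub_cancel' hlt.le]
        exact h4.symm
      · calc 2 ≤ p := hp
          _ = p ^ 1 := (pow_one p).symm
          _ ≤ p ^ (a - b) := Nat.pow_le_pow_right (by omega) (by omega)
  have hBunit : IsUnit B := by
    rw [hBe]
    exact hA.pow e
  obtain ⟨σ⟩ : Nonempty (L →+* ℂ) := inferInstance
  have hroots : ∀ l : ℂ, (B.charpoly.map (emb σ)).IsRoot l → ∃ N : ℕ, 0 < N ∧ l ^ N = 1 := by
    intro l hl
    have hstep : ∀ z : ℂ, (B.charpoly.map (emb σ)).IsRoot z →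
        (B.charpoly.map (emb σ)).IsRoot (z ^ Q) := by
      intro z hz
      rw [← charpoly_emb] at hz
      have h5 := root_pow _ Q z hz
      rw [← map_pow, charpoly_emb, hB] at h5
      exact h5
    have hall : ∀ t : ℕ, (B.charpoly.map (emb σ)).IsRoot (l ^ Q ^ t) := by
      intro t
      induction t with
      | zero => simpa using hl
      | succ t ih =>
        rw [pow_succ, pow_mul]
        exact hstep _ ih
    have hne : B.charpoly.map (emb σ) ≠ 0 := (B.charpoly_monic.map _).ne_zero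
    have hfin : (Set.range fun t : ℕ => l ^ Q ^ t).Finite := by
      refine ((B.charpoly.map (emb σ)).roots.toFinset.finite_toSet).subset ?_
      rintro _ ⟨t, rfl⟩
      rw [Finset.mem_coe, Multiset.mem_toFinset, Polynomial.mem_roots hne]
      exact hall t
    have hninj : ¬ Function.Injective fun t : ℕ => l ^ Q ^ t := by
      intro hinj
      exact Set.infinite_range_of_injective hinj hfin
    have hl0 : l ≠ 0 := by
      rintro rfl
      rw [← charpoly_emb, ← Matrix.mem_spectrum_iff_isRoot_charpoly, spectrum.zero_mem_iff] at hl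
      exact hl (hBunit.map _)
    rw [Function.Injective] at hninj
    push Not at hninj
    obtain ⟨s, t, hst, hne'⟩ := hninj
    have key : ∀ s t : ℕ, s < t → l ^ Q ^ s = l ^ Q ^ t → ∃ N : ℕ, 0 < N ∧ l ^ N = 1 := by
      intro s t hlt hst
      have h6 : Q ^ s < Q ^ t := Nat.pow_lt_pow_right (by omega) hlt
      refine ⟨Q ^ t - Q ^ s, by omega, ?_⟩
      have h7 : l ^ Q ^ s * l ^ (Q ^ t - Q ^ s) = l ^ Q ^ s * 1 := by
        rw [← pow_add, Nat.add_sub_cancel' h6.le, mul_one]
        exact hst.symm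
      exact mul_left_cancel₀ (pow_ne_zero _ hl0) h7
    rcases lt_or_gt_of_ne hne' with hlt | hlt
    · exact key s t hlt hst
    · exact key t s hlt hst.symm
  obtain ⟨N, hN0, hnil⟩ := nilp_of_roots (emb σ) (emb_injective σ) B hroots
  rw [hBe, ← pow_mul] at hnil
  exact hN (e * N) (Nat.mul_pos he hN0) hnil

/-! ### reduction -/

theorem v_int_lt {v : FinitePlace K} {p : ℕ} (hv : v (p : K) < 1) {z : ℤ} (h : (p : ℤ) ∣ z) :
    v (z : K) < 1 := by
  obtain ⟨t, rfl⟩ := h
  push_cast
  rw [map_mul]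
  have h1 : v ((t : ℤ) : K) ≤ 1 := by
    have := v_le_one v ((t : ℤ) : 𝓞 K)
    simpa using this
  calc v (p : K) * v (t : K) ≤ v (p : K) * 1 := mul_le_mul_of_nonneg_left h1 (apply_nonneg _ _)
    _ < 1 := by rwa [mul_one]

theorem v_int_eq {v : FinitePlace K} {p : ℕ} (hp : p.Prime) (hv : v (p : K) < 1) {z : ℤ}
    (h : ¬ (p : ℤ) ∣ z) : v (z : K) = 1 := by
  have hz : (z : K) = ((z : 𝓞 K) : K) := by simp
  apply le_antisymm
  · rw [hz]
    exact v_le_one v _
  · by_contra hlt
    push Not at hlt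
    have hp' : (p : K) = ((p : 𝓞 K) : K) := by simp
    rw [hz, v_lt_one_iff] at hlt
    rw [hp', v_lt_one_iff] at hv
    have hco : IsCoprime (p : ℤ) z :=
      (Nat.prime_iff_prime_int.mp hp).coprime_iff_not_dvd.mpr h
    obtain ⟨a, b, hab⟩ := hco
    have h1 : (1 : 𝓞 K) ∈ mi v := by
      have h2 : (1 : 𝓞 K) = (a : 𝓞 K) * (p : 𝓞 K) + (b : 𝓞 K) * (z : 𝓞 K) := by
        exact_mod_cast congrArg (Int.cast : ℤ → 𝓞 K) hab.symm
      rw [h2]
      exact (mi v).add_mem ((mi v).mul_mem_left _ hv) ((mi v).mul_mem_left _ hlt)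
    exact (inferInstance : (mi v).IsMaximal).ne_top ((Ideal.eq_top_iff_one _).mpr h1)

theorem frK_insep (v : FinitePlace K) (p : ℕ) (hp : p.Prime) (hv : v (p : K) < 1) (n : ℕ) :
    InsepN v (p ^ 1) (frK K p n) := by
  have : Fact p.Prime := ⟨hp⟩
  have hco : ∀ i m, (frK K p n i).coeff m = (((frm p n i).coeff m : ℤ) : K) := by
    intro i m
    rw [frK, MvPolynomial.coeff_map]
    rfl
  rw [pow_one]
  refine ⟨fun i m => ?_, fun i m hm => ?_, ?_⟩
  · rw [hco]
    have := v_le_one v (((frm p n i).coeff m : ℤ) : 𝓞 K)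
    simpa using this
  · rw [hco]
    apply v_int_lt hv
    rw [← ZMod.intCast_zmod_eq_zero_iff_dvd, frm_mod, if_neg (hm i)]
  · have h1 : (Matrix.of fun i j => (frK K p n i).coeff (Finsupp.single j p)) =
        (Matrix.of fun i j : Fin (n + 1) => (frm p n i).coeff (Finsupp.single j p)).map
          (Int.castRingHom K) := by
      ext i j
      simp [hco]
    rw [h1]
    have h2 := RingHom.map_det (Int.castRingHom K)
      (Matrix.of fun i j : Fin (n + 1) => (frm p n i).coeff (Finsupp.single j p))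
    rw [RingHom.mapMatrix_apply] at h2
    rw [← h2]
    apply v_int_eq hp hv
    rw [← ZMod.intCast_zmod_eq_zero_iff_dvd]
    have h3 := RingHom.map_det (Int.castRingHom (ZMod p))
      (Matrix.of fun i j : Fin (n + 1) => (frm p n i).coeff (Finsupp.single j p))
    rw [RingHom.mapMatrix_apply] at h3
    have h4 : (Matrix.of fun i j : Fin (n + 1) => (frm p n i).coeff (Finsupp.single j p)).map
          (Int.castRingHom (ZMod p)) = ((-1) ^ (n * p) : ZMod p) • (1 : Matrix _ _ (ZMod p)) := by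
      ext i j
      rw [Matrix.map_apply, Matrix.of_apply, Matrix.smul_apply, Matrix.one_apply]
      change (((frm p n i).coeff (Finsupp.single j p) : ℤ) : ZMod p) = _
      rw [frm_mod]
      by_cases hij : i = j
      · rw [if_pos (by rw [hij]), if_pos hij, smul_eq_mul, mul_one]
      · rw [if_neg, if_neg hij, smul_zero]
        intro h5
        rw [Finsupp.single_left_inj hp.ne_zero] at h5
        exact hij h5.symm
    rw [h4, Matrix.det_smul, Matrix.det_one, mul_one] at h3
    intro h5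
    change ((Matrix.of fun i j : Fin (n + 1) =>
      (frm p n i).coeff (Finsupp.single j p)).det : ZMod p) = _ at h3
    rw [h5] at h3
    have h6 : ((-1 : ZMod p) ^ (n * p)) ^ Fintype.card (Fin (n + 1)) ≠ 0 :=
      pow_ne_zero _ (pow_ne_zero _ (neg_ne_zero.mpr one_ne_zero))
    exact h6 h3.symm

end Pool.Agent.TH285.MG
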